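import Mathlib
import Pool.Agent.Q11.RAlt

set_option autoImplicit false

namespace Pool.Agent.Results.MP_bbc03c_al.RightAltCentrallyEss

universe u

/-- The center `Z(R) = N(R) ∩ K(R)` of a unital, not necessarily associative ring: the elements
that commute with everything and whose associators in all three positions vanish. -/
def center (R : Type u) [NonAssocRing R] : Set R :=
  {x | ∀ a b : R, (x * a) * b - x * (a * b) = 0 ∧ (a * x) * b - a * (x * b) = 0 ∧
    (a * b) * x - a * (b * x) = 0 ∧ x * a - a * x = 0}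

/-- `Z(R) r ∩ Z(R) ≠ 0` for every nonzero `r`. -/
def CentrallyEssential (R : Type u) [NonAssocRing R] : Prop :=
  ∀ r : R, r ≠ 0 → ∃ x ∈ center R, x * r ∈ center R ∧ x * r ≠ 0

/-- `(a, b, b) = 0` for all `a, b`. -/
def RightAlternative (R : Type u) [NonAssocRing R] : Prop :=
  ∀ a b : R, (a * b) * b - a * (b * b) = 0

/-- `(a, a, b) = 0` and `(a, b, b) = 0` for all `a, b`. -/
def Alternative (R : Type u) [NonAssocRing R] : Prop :=
  ∀ a b : R, (a * a) * b - a * (a * b) = 0 ∧ (a * b) * b - a * (b * b) = 0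

/-- Over every field `F` there is a unital `F`-algebra of dimension `11` that is right-alternative
and centrally essential but not alternative. -/
theorem result (F : Type u) [Field F] :
    ∃ (R : Type u) (_ : NonAssocRing R) (_ : Module F R),
      IsScalarTower F R R ∧ SMulCommClass F R R ∧ Module.finrank F R = 11 ∧
      RightAlternative R ∧ ¬ Alternative R ∧ CentrallyEssential R := by
  have hz : ∀ x : Q11.RAlt.R11 F, x 0 = 0 → x 1 = 0 → x 2 = 0 → x 3 = 0 → x 4 = 0 →
      x ∈ center (Q11.RAlt.R11 F) := by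
    intro x h0 h1 h2 h3 h4 a b
    have h := Q11.RAlt.central x h0 h1 h2 h3 h4 a b
    simp only [sub_eq_zero]
    exact h
  refine ⟨Q11.RAlt.R11 F, inferInstance, inferInstance, inferInstance, inferInstance,
    Q11.RAlt.finrank11, ?_, ?_, ?_⟩
  · intro a b
    rw [sub_eq_zero]
    exact Q11.RAlt.right_alt a b
  · intro h
    exact Q11.RAlt.not_left_alt (sub_eq_zero.1 (h (Q11.RAlt.e 1) (Q11.RAlt.e 2)).1)
  · intro r hr
    by_cases h : r 0 = 0 ∧ r 1 = 0 ∧ r 2 = 0 ∧ r 3 = 0 ∧ r 4 = 0
    · obtain ⟨h0, h1, h2, h3, h4⟩ := h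
      refine ⟨1, ?_, ?_, ?_⟩
      · intro a b; simp
      · rw [one_mul]; exact hz r h0 h1 h2 h3 h4
      · rw [one_mul]; exact hr
    · refine ⟨Q11.RAlt.e 6, ?_, ?_, ?_⟩
      · apply hz <;> simp [Q11.RAlt.e_ap]
      · apply hz <;> simp [Q11.RAlt.e_ap]
      · intro h2
        apply h
        refine ⟨?_, ?_, ?_, ?_, ?_⟩
        · simpa [Q11.RAlt.e_ap] using congrFun h2 6
        · simpa [Q11.RAlt.e_ap] using congrFun h2 7
        · simpa [Q11.RAlt.e_ap] using congrFun h2 8
        · simpa [Q11.RAlt.e_ap] using congrFun h2 9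
        · simpa [Q11.RAlt.e_ap] using congrFun h2 10

end Pool.Agent.Results.MP_bbc03c_al.RightAltCentrallyEss
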